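import Mathlib
import Pool.Agent.N679.BH.Str2
import Pool.Agent.N679.GB.Glu2

/-!
# Almost all even numbers in every window are sums of two distinct primes, or Polignac in a Bohr set

One of the following two statements holds.

1. There are `N ≥ 1`, a Bohr set (finitely many points `θ` of the unit circle, `ρ > 0`; the integers `a` with
   `|θ ^ a - 1| < ρ` for all `θ`), `B`, `δ > 0` and `C` such that in EVERY interval of length `H` all but
   `C H ^ (1 - δ)` of the multiples `a` of `N` in the Bohr set are infinitely often differences of two primes (for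
   arbitrarily large `x` there are at least `x / (log x) ^ B` primes `q ≤ x` with `a + q` prime).
2. For every `ε > 0` there is a `C` such that for all `b`, all residue classes and all sufficiently large `M` and `H`
   at least the proportion `1 - ε` of the `m` of the class with `gcd (m, b) = 1`, `2 ∣ m b` in the interval
   `(M, M + H]` have at least `m / (log m) ^ C` representations `m = p + b q` with DISTINCT primes `p`, `q`. For
   `b = 1`: almost all even numbers in every window of bounded length far to the right, also in residue classes, are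
   sums of two distinct primes.

The coloured Maynard-Tao theorem with the constant `18/5` (`Pool.Agent.Y827.RO.lamRD`) is from the
starting files.
-/

set_option autoImplicit false

namespace Pool.Agent.Results.MP_7b7e48_nt.AlmostAllOrPolignac

open Finset Filter

/-- the number of the representations `m = p + b q` with distinct primes `p`, `q` -/
noncomputable def reps (b m : ℤ) : ℕ := {q : ℕ | q.Prime ∧ ∃ p : ℕ, p.Prime ∧ p ≠ q ∧ (p : ℤ) + b * q = m}.ncard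

/-- the local condition for `m = p + b q`: for `b = 1` this means that `m` is even -/
def Adm (m b : ℤ) : Prop := Int.gcd m b = 1 ∧ 2 ∣ m * b

/-- `m` satisfies the local condition and has at least `m / (log m) ^ C` representations `m = p + b q` with distinct
primes `p`, `q` -/
def ManyReps (C : ℕ) (b m : ℤ) : Prop := Adm m b ∧ (m : ℝ) / (Real.log m) ^ C ≤ reps b m

/-- `a` is infinitely often a difference of two primes `p - q`; moreover, there are arbitrarily large `x` with at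
least `x / (log x) ^ B` primes `q ≤ x` for which `a + q` is prime -/
def Polignac (B : ℕ) (a : ℤ) : Prop :=
  {q : ℕ | q.Prime ∧ ∃ p : ℕ, p.Prime ∧ (p : ℤ) - q = a}.Infinite ∧
    ∃ᶠ x : ℕ in atTop,
      (x : ℝ) / (Real.log x) ^ B ≤ ({q : ℕ | q ≤ x ∧ q.Prime ∧ ∃ p : ℕ, p.Prime ∧ (p : ℤ) - q = a}.ncard : ℝ)

/-- the integer `a` is in the Bohr set of the finite set `Λ` of points of the unit circle and the radius `ρ` -/
def InBohr (Λ : Finset Circle) (ρ : ℝ) (a : ℤ) : Prop := ∀ θ ∈ Λ, ‖((θ ^ a : Circle) : ℂ) - 1‖ < ρ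

theorem pol_of {B : ℕ} {a : ℤ} (h : Pool.Agent.N679.PD.Oft B a 1) : Polignac B a := by
  have e : ∀ q p : ℕ, (a + (q : ℤ) * 1 = p) ↔ ((p : ℤ) - q = a) := fun q p => by omega
  obtain ⟨_, h2⟩ := h
  unfold Pool.Agent.N679.PD.cnt at h2
  simp only [e] at h2
  exact ⟨Pool.Agent.R493.OT.infinite_of_freq (B := B) h2, h2⟩

/-- roots on the circle -/
theorem root (N : ℕ) (hN : 1 ≤ N) (θ : Circle) : ∃ ξ : Circle, ∀ s : ℤ, ξ ^ ((N : ℤ) * s) = θ ^ s := by
  obtain ⟨t, ht⟩ : ∃ t : ℝ, Circle.exp t = θ := ⟨_, Circle.exp_arg θ⟩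
  refine ⟨Circle.exp (t / N), fun s => ?_⟩
  have hN0 : (N : ℝ) ≠ 0 := by
    have : (0 : ℝ) < N := by exact_mod_cast hN
    exact this.ne'
  have h1 : Circle.exp (t / N) ^ N = θ := by
    rw [← ht, ← Circle.exp_natCast_mul]
    congr 1
    field_simp
  rw [zpow_mul, zpow_natCast, h1]

/-- removing the representations with `p = q` -/
theorem rep_le (b m : ℤ) (hb : 1 ≤ b) : Pool.Agent.N679.GB.rep b m ≤ reps b m + 1 := by
  unfold Pool.Agent.N679.GB.rep reps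
  have hfin : {q : ℕ | q.Prime ∧ ∃ p : ℕ, p.Prime ∧ p ≠ q ∧ (p : ℤ) + b * q = m}.Finite := by
    refine (Set.finite_Iic m.toNat).subset ?_
    rintro q ⟨_, p, _, _, h⟩
    have h3 : (1 : ℤ) * q ≤ b * q := mul_le_mul_of_nonneg_right hb (Nat.cast_nonneg _)
    have h4 : (0 : ℤ) ≤ p := Nat.cast_nonneg _
    show q ≤ m.toNat
    omega
  have hsub : {q : ℕ | q.Prime ∧ ∃ p : ℕ, p.Prime ∧ (p : ℤ) + b * q = m} ⊆
      {q : ℕ | q.Prime ∧ ∃ p : ℕ, p.Prime ∧ p ≠ q ∧ (p : ℤ) + b * q = m} ∪ {(m / (b + 1)).toNat} := by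
    rintro q ⟨hq, p, hp, h⟩
    by_cases hpq : p = q
    · right
      rw [Set.mem_singleton_iff]
      subst hpq
      have h1 : m = (b + 1) * p := by rw [← h]; ring
      rw [h1, Int.mul_ediv_cancel_left _ (by omega), Int.toNat_natCast]
    · exact Or.inl ⟨hq, p, hp, hpq, h⟩
  refine (Set.ncard_le_ncard hsub (hfin.union (Set.finite_singleton _))).trans ?_
  refine (Set.ncard_union_le _ _).trans ?_
  rw [Set.ncard_singleton]

theorem large (C : ℕ) : ∃ m₀ : ℕ, ∀ m : ℤ, (m₀ : ℤ) ≤ m →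
    (m : ℝ) / (Real.log m) ^ (C + 1) + 1 ≤ (m : ℝ) / (Real.log m) ^ C := by
  have h1 : ∀ᶠ m : ℕ in atTop, (1 : ℝ) ≤ (m : ℝ) / (Real.log m) ^ (C + 1) := by
    have h2 : ∀ᶠ x : ℝ in atTop, ‖Real.log x ^ (C + 1)‖ ≤ 1 * ‖x‖ :=
      (Real.isLittleO_pow_log_id_atTop (n := C + 1)).def one_pos
    filter_upwards [tendsto_natCast_atTop_atTop.eventually h2, eventually_ge_atTop 3] with m hm hm3
    have hm0 : (3 : ℝ) ≤ m := by exact_mod_cast hm3
    have hl : 0 < Real.log m := Real.log_pos (by linarith)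
    rw [le_div_iff₀ (by positivity), one_mul]
    rw [one_mul, Real.norm_of_nonneg (by positivity), Real.norm_of_nonneg (by linarith)] at hm
    exact hm
  have h3 : ∀ᶠ m : ℕ in atTop, (2 : ℝ) ≤ Real.log m :=
    (Real.tendsto_log_atTop.comp tendsto_natCast_atTop_atTop).eventually_ge_atTop _
  obtain ⟨m₀, hm₀⟩ := eventually_atTop.1 (h1.and h3)
  refine ⟨m₀, fun m hm => ?_⟩
  obtain ⟨k, rfl⟩ := Int.eq_ofNat_of_zero_le (le_trans (Nat.cast_nonneg m₀) hm)
  obtain ⟨h4, h5⟩ := hm₀ k (by exact_mod_cast hm)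
  rw [Int.cast_natCast]
  have hl : 0 < Real.log (k : ℝ) := by linarith
  have e1 : (k : ℝ) / (Real.log k) ^ C = Real.log k * ((k : ℝ) / (Real.log k) ^ (C + 1)) := by
    rw [pow_succ]
    field_simp
  rw [e1]
  nlinarith

open Classical in
theorem result :
    -- differences of primes
    (∃ N B : ℕ, 1 ≤ N ∧ ∃ (Λ : Finset Circle) (ρ δ C : ℝ), 0 < ρ ∧ 0 < δ ∧ ∀ (A : ℤ) (H : ℕ), 1 ≤ H →
      (((Ioc A (A + H)).filter (fun a : ℤ => (N : ℤ) ∣ a ∧ InBohr Λ ρ a ∧ ¬ Polignac B a)).card : ℝ) ≤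
        C * (H : ℝ) ^ (1 - δ)) ∨
    -- sums of two distinct primes
    (∀ ε : ℝ, 0 < ε → ∃ C : ℕ, ∀ b N : ℕ, 1 ≤ b → 1 ≤ N → ∀ r : ℤ, ∃ L : ℕ, ∀ M H : ℕ, L ≤ M → L ≤ H →
      (1 - ε) * (((Ioc (M : ℤ) (M + H)).filter (fun m : ℤ => (N : ℤ) ∣ m - r ∧ Adm m b)).card : ℝ) ≤
        (((Ioc (M : ℤ) (M + H)).filter (fun m : ℤ => (N : ℤ) ∣ m - r ∧ ManyReps C b m)).card : ℝ)) := by
  by_cases h1 : ∃ N B : ℕ, 1 ≤ N ∧ ∃ (Λ : Finset Circle) (ρ δ C : ℝ), 0 < ρ ∧ 0 < δ ∧ ∀ (A : ℤ) (H : ℕ), 1 ≤ H →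
      (((Ioc A (A + H)).filter (fun a : ℤ => (N : ℤ) ∣ a ∧ InBohr Λ ρ a ∧ ¬ Polignac B a)).card : ℝ) ≤
        C * (H : ℝ) ^ (1 - δ)
  · exact Or.inl h1
  right
  push Not at h1
  intro ε hε
  obtain ⟨ε', hε'0, hε'1, hε'2⟩ : ∃ ε' : ℝ, 0 < ε' ∧ ε' ≤ 1 ∧ 2 * ε' ≤ ε :=
    ⟨min (ε / 2) 1, lt_min (by linarith) (by norm_num), min_le_right _ _, by
      linarith [min_le_left (ε / 2) 1]⟩
  obtain ⟨n₀, hn₀⟩ := Pool.Agent.N679.BH.str2 Pool.Agent.N679.BH.s_kn2 ε' hε'0 hε'1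
  set n : ℕ := max n₀ 1 with hn
  have hn1 : 1 ≤ n := le_max_right _ _
  obtain ⟨K, hK, hmany⟩ := Pool.Agent.N679.GB.many2 n hn1
  refine ⟨4 * n * K + 3 + 1, fun b N₀ hb hN₀ r => ?_⟩
  by_contra hcon
  push Not at hcon
  set N₁ : ℕ := N₀ * (2 * (4 * n * K).factorial * b) with hN₁
  have hfac : 0 < (4 * n * K).factorial := Nat.factorial_pos _
  have hN₁1 : 1 ≤ N₁ := by
    rw [hN₁]
    have : 0 < N₀ * (2 * (4 * n * K).factorial * b) := by positivity
    exact this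
  have h2 : 2 ∣ N₁ := ⟨N₀ * ((4 * n * K).factorial * b), by rw [hN₁]; ring⟩
  have hbN : b ∣ N₁ := ⟨N₀ * (2 * (4 * n * K).factorial), by rw [hN₁]; ring⟩
  have hNN : N₀ ∣ N₁ := Dvd.intro _ rfl
  have hNp : ∀ p : ℕ, p.Prime → p ≤ 4 * n * K → p ∣ N₁ := by
    intro p hp hle
    refine ((Nat.Prime.dvd_factorial hp).2 hle).trans ⟨N₀ * (2 * b), ?_⟩
    rw [hN₁]; ring
  set N : ℕ := b * N₁ with hN
  have hN1 : 1 ≤ N := Nat.mul_pos hb hN₁1
  have hN1N : N₁ ∣ N := Dvd.intro_left _ rfl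
  obtain ⟨α, hα0, hα1, hα, hU⟩ := Pool.Agent.N679.GB.dens2 (d := b) (N := N) (N₀ := N₀) hN1 (h2.trans hN1N)
    (hbN.trans hN1N) (hNN.trans hN1N) r
    (fun m => ManyReps (4 * n * K + 3 + 1) b m) (fun a h => h.1) (2 * ε') ε' (by positivity) (by linarith) (by
      intro L
      obtain ⟨M, H, hLM, hLH, h⟩ := hcon L
      refine ⟨M, H, hLM, hLH, h.trans_le ?_⟩
      exact mul_le_mul_of_nonneg_right (by linarith) (Nat.cast_nonneg _))
  obtain ⟨U, hU1, hU2, hU3⟩ := Pool.Agent.N679.GB.limset (P := fun u s =>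
    ¬ ManyReps (4 * n * K + 3 + 1) b (α + N * ((u : ℤ) + s))) hU
  obtain ⟨q, K', Λ, δ, hq, hK', hδ, hstr⟩ := hn₀ n (le_max_left _ _) b hb U hU1 K hK
  obtain ⟨C, hC⟩ := Pool.Agent.N679.SD.rect K' hK'
  have hK'0 : (0 : ℝ) < K' := by exact_mod_cast hK'
  choose ξ hξ using root N hN1
  obtain ⟨A, H, hH, hcard⟩ := h1 (N * q) (4 * n * K + 3) (Nat.mul_pos hN1 hq) (Λ.image ξ) δ (1 / (K' : ℝ)) C hδ
    (by positivity)
  obtain ⟨l, l', hl, hl', hll⟩ := hC N q (h2.trans hN1N) hN1 hq A H hH _ (filter_subset _ _)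
    (fun a ha => (mem_filter.1 ha).2.1) hcard
  obtain ⟨X, Z, hX, hZ, _, hXV, hZV, hS⟩ := hstr {s : ℤ | ¬ Polignac (4 * n * K + 3) (N * s)}
    ⟨l, l', hl, hl', fun i j => by
      have h3 := (mem_filter.1 (hll i j)).2
      refine ⟨h3.2.2, fun θ hθ => ?_⟩
      have h4 := h3.2.1 (ξ θ) (mem_image_of_mem ξ hθ)
      rw [hξ] at h4
      exact h4⟩
  obtain ⟨R₁, hR₁⟩ : ∃ R₁ : ℕ, ∀ a i k a' j k', Z a' j k' - b * X a i k ≤ R₁ := by
    obtain ⟨M, hM⟩ := (Set.finite_range (fun x : (Bool × Fin n × Fin K) × (Bool × Fin n × Fin K) =>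
      Z x.2.1 x.2.2.1 x.2.2.2 - b * X x.1.1 x.1.2.1 x.1.2.2)).bddAbove
    exact ⟨M.toNat, fun a i k a' j k' => (hM ⟨((a, i, k), (a', j, k')), rfl⟩).trans (Int.self_le_toNat M)⟩
  obtain ⟨m₀, hm₀⟩ := large (4 * n * K + 3)
  refine Pool.Agent.N679.GB.glue2 hmany hb hN₁1 h2 hNp hbN hN hα X Z hX hZ
    (fun i k k' h => hXV i k k' (pol_of h)) (fun i k k' h => hZV i k k' (pol_of h)) (fun R => ?_)
  obtain ⟨u, hu, hbad⟩ := hU3 (max (max R m₀) R₁)
  have huR : max R m₀ ≤ u := (le_max_left _ _).trans hu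
  refine ⟨u, (le_max_left _ _).trans huR, fun S S' hd hd' hcard => ?_⟩
  obtain ⟨a, a', i, hi, j, hj, h⟩ := hS S S' hd hd' hcard
  refine ⟨a, a', i, hi, j, hj, fun k k' => ?_⟩
  have h3 := hbad _ (h k k') ((hR₁ a i k a' j k').trans (by exact_mod_cast le_max_right _ _))
  by_contra hno
  push Not at hno
  refine h3 ⟨?_, ?_⟩
  · refine Pool.Agent.N679.SD.adm_shift (h2.trans hN1N) (by exact_mod_cast hbN.trans hN1N) ?_ hα
    rw [add_sub_cancel_left]
    exact Dvd.intro _ rfl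
  · set m : ℤ := α + N * ((u : ℤ) + (Z a' j k' - b * X a i k)) with hm
    have hs0 := hU2 _ (h k k')
    have h5 : (m₀ : ℤ) ≤ m := by
      have h6 : (1 : ℤ) ≤ N := by exact_mod_cast hN1
      have h7 : (m₀ : ℤ) ≤ u := by exact_mod_cast (le_max_right R m₀).trans huR
      have h8 : (0 : ℤ) ≤ (u : ℤ) + (Z a' j k' - b * X a i k) := by
        have : (0 : ℤ) ≤ u := Nat.cast_nonneg _
        linarith
      have h9 := mul_le_mul_of_nonneg_right h6 h8
      rw [hm]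
      linarith
    have h6 := hm₀ m h5
    have h7 : (Pool.Agent.N679.GB.rep b m : ℝ) ≤ reps b m + 1 := by
      exact_mod_cast rep_le b m (by exact_mod_cast hb)
    linarith

end Pool.Agent.Results.MP_7b7e48_nt.AlmostAllOrPolignac
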