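import Pool.Agent.N469.SQ.Gold2
import Pool.Agent.N469.SQ.Smooth

/-!
# Goldbach's conjecture for almost all smooth numbers

Definitions used (all in `Pool.Agent.H560R3.GB`): `C₂`: the twin prime constant
`∏_{p > 2} (1 - 1 / (p - 1) ^ 2)`; `sing n`: the singular series
`2 C₂ ∏_{p ∣ n, p > 2} (p - 1) / (p - 2)`; `g n`: the number of ordered representations of `n` as a
sum of two primes; `HL n = sing n * n / log ^ 2 n`: the prediction of Hardy and Littlewood for `g n`.

The main step is an elementary bound for the exponential sum over the integers composed of primes from a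
given set `P` of primes `≤ y` (`Pool.Agent.N469.SQ.exp_alt`): it is small, unless the frequency is very close to a
rational number with a small denominator. An integer is split into the product `d` of its largest prime factors and
the product `m` of the others, and the sum over `d` is extended to all the integers of an interval. The theorem then
follows with the second moment method (`Pool.Agent.W93.AU.gen_var`, starting files).
-/

set_option autoImplicit false

namespace Pool.Agent.Results.MP_7b7e48_nt.SmoothNumbers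

open Finset Pool.Agent.H560R3.GB

/-- `n` is a sum of two distinct primes, and the number of its representations as a sum of two primes
agrees with the prediction of Hardy and Littlewood up to a relative error of at most `ε`. -/
def Holds (ε : ℝ) (n : ℕ) : Prop :=
  |(g n : ℝ) - HL n| ≤ ε * HL n ∧ ∃ p q : ℕ, p.Prime ∧ q.Prime ∧ p ≠ q ∧ p + q = n

/-- The integers `1 ≤ v ≤ x` all of whose prime factors belong to `P`. -/
def composedOf (P : Finset ℕ) (x : ℕ) : Finset ℕ := (Icc 1 x).filter fun v => v.primeFactors ⊆ P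

/-- The `y`-smooth integers `1 ≤ v ≤ x`: the integers all of whose prime factors are at most `y`. -/
def smooth (y x : ℕ) : Finset ℕ := (Icc 1 x).filter fun v => ∀ p ∈ v.primeFactors, p ≤ y

open Classical in
/-- Let `B`, `K`, `U`, `κ ≠ 0`, `δ > 0` and `ε > 0` be fixed. Let `N` be large, let `N / B ≤ x ≤ N` and
`1 ≤ y ≤ log ^ K N`, and let `c` be an arbitrary integer with `|c| ≤ B N`. (The case of the even numbers `2 v` is `κ = 2`,
`c = 0`.)

(1) Let `P` be an arbitrary set of primes which are at most `y`, with at least `y ^ (1 / 2 + δ) log N` elements. Then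
all the integers `v ≤ x` composed of primes from `P`, up to a proportion of at most `1 / log ^ U N` of them, have the
following property: if `c + κ v` is positive and even, then `c + κ v` is a sum of two distinct primes, and the number
of its representations as a sum of two primes agrees with the prediction of Hardy and Littlewood up to a
relative error of at most `ε`. (There can be as few as about `N ^ (1 / 2 + δ)` such integers `v`.)

(2) In particular all the `y`-smooth numbers `v ≤ x` have this property, up to a proportion of at most `1 / log ^ U N`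
of them, if `y ≥ log ^ (2 + δ) N`. -/
theorem result (B K U : ℕ) (κ : ℤ) (hκ : κ ≠ 0) (δ ε : ℝ) (hδ : 0 < δ) (hε : 0 < ε) :
    ∃ N₀ : ℕ, ∀ N, N₀ ≤ N → ∀ x y : ℕ, x ≤ N → N ≤ B * x → 1 ≤ y → (y : ℝ) ≤ Real.log N ^ K → ∀ c : ℤ, |c| ≤ B * N →
      (∀ P : Finset ℕ, (∀ p ∈ P, p.Prime ∧ p ≤ y) → (y : ℝ) ^ (1 / 2 + δ) * Real.log N ≤ P.card →
        (((composedOf P x).filter fun v : ℕ => 0 < c + κ * v ∧ Even (c + κ * v) ∧ ¬ Holds ε (c + κ * v).toNat).card : ℝ) ≤
          ((composedOf P x).card : ℝ) / Real.log N ^ U) ∧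
      (Real.log N ^ (2 + δ) ≤ y →
        (((smooth y x).filter fun v : ℕ => 0 < c + κ * v ∧ Even (c + κ * v) ∧ ¬ Holds ε (c + κ * v).toNat).card : ℝ) ≤
          ((smooth y x).card : ℝ) / Real.log N ^ U) := by
  obtain ⟨δ', N1, hδ', h1⟩ := Pool.Agent.N469.SQ.PR_cond δ hδ
  obtain ⟨N2, h2⟩ := Pool.Agent.N469.SQ.gold_card δ hδ B K U κ hκ ε hε
  obtain ⟨N3, h3⟩ := Pool.Agent.N469.SQ.gold_card δ' hδ' B K U κ hκ ε hε
  refine ⟨N1 + N2 + N3, fun N hN x y hx hx' hy hy' c hc => ⟨fun P hP hcard => ?_, fun hyl => ?_⟩⟩
  · exact h2 N (by omega) P y x hx hx' hP hy hy' hcard c hc _ (fun v hv => hv)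
  have h4 := h3 N (by omega) (Pool.Agent.N469.SQ.PR y) y x hx hx' (fun p hp => Pool.Agent.N469.SQ.mem_PR.1 hp) hy hy'
    (h1 N (by omega) y hyl).2 c hc
    (fun v : ℕ => 0 < c + κ * v ∧ Even (c + κ * v) ∧ ¬ Holds ε (c + κ * v).toNat) (fun v hv => hv)
  have e1 : smooth y x = Pool.Agent.N469.SM.SS (Pool.Agent.N469.SQ.PR y) x := by
    ext v
    unfold smooth Pool.Agent.N469.SM.SS
    rw [mem_filter, mem_filter]
    constructor
    · rintro ⟨h5, h6⟩
      exact ⟨h5, fun p hp => Pool.Agent.N469.SQ.mem_PR.2 ⟨Nat.prime_of_mem_primeFactors hp, h6 p hp⟩⟩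
    · rintro ⟨h5, h6⟩
      exact ⟨h5, fun p hp => (Pool.Agent.N469.SQ.mem_PR.1 (h6 hp)).2⟩
  rw [e1]
  exact h4

end Pool.Agent.Results.MP_7b7e48_nt.SmoothNumbers
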