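import Mathlib
import Pool.Agent.N730.PT.Tur

set_option autoImplicit false

/-! The Turan (Erdos-Stone) theorem for sums of two distinct primes. -/

namespace Pool.Agent.Results.MP_7b7e48_nt.TuranPrimeSums

open Finset

open Classical in
/-- The number of even elements of `Z` up to `x`, divided by `x / 2`. -/
noncomputable def evenDensity (Z : Set ℕ) (x : ℕ) : ℝ :=
  ((Icc 1 x).filter (fun n => Even n ∧ n ∈ Z)).card / ((x : ℝ) / 2)

/-- The placements of the vertices of `H` at distinct primes up to `x` such that for every edge `uv`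
the sum of the primes at `u` and `v` lies in `Z`. -/
def placements {V : Type} (H : SimpleGraph V) (Z : Set ℕ) (x : ℕ) : Set (V → ℕ) :=
  {f | Function.Injective f ∧ (∀ v, (f v).Prime ∧ f v ≤ x) ∧ ∀ u v, H.Adj u v → f u + f v ∈ Z}

/-- If a set contains, up to `x`, at least the proportion `π(H) + ε` of the even numbers, where
`π(H)` is the Turan density of `H`, then a positive proportion of all tuples of primes up to `x` indexed
by the vertices of `H` have all their edge sums in that set. -/
theorem result (V : Type) [Fintype V] (H : SimpleGraph V) (ε : ℝ) (hε : 0 < ε) :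
    ∃ δ : ℝ, 0 < δ ∧ ∃ x₀ : ℕ, ∀ x : ℕ, x₀ ≤ x → ∀ Z : Set ℕ,
      H.turanDensity + ε ≤ evenDensity Z x →
      δ * ((x : ℝ) / Real.log x) ^ Fintype.card V ≤ ((placements H Z x).ncard : ℝ) := by
  classical
  obtain ⟨δ, hδ, x₀, h⟩ := Pool.Agent.N730.PT.turan_count H ε hε
  refine ⟨δ, hδ, x₀, fun x hx Z hZ => h x hx Z ?_⟩
  refine hZ.trans (le_of_eq ?_)
  unfold evenDensity
  simp only [even_iff_two_dvd]
  rw [div_div_eq_mul_div, mul_comm]

end Pool.Agent.Results.MP_7b7e48_nt.TuranPrimeSums
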